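import Pool.Agent.Q292.LC.Stm7
import Pool.Agent.Q53.LC.Poi

/-!
# Project LC (helper292, helper565), job CNT: covering of a ball of the torus by small balls
-/

set_option autoImplicit false

namespace Run7.h34.LC

open Finset Q292.LC

theorem cnt : S_CNT := by
  classical
  intro d L _ hd _ S r₁ R lam hr₁ hS z
  set m := r₁ / d with hm
  have hm1 : 1 ≤ m := (Nat.one_le_div_iff (by omega)).2 hr₁
  have hdm : d * m ≤ r₁ := Nat.mul_div_le r₁ d
  set T : Finset (Fin d → ℤ) :=
    Fintype.piFinset (fun _ : Fin d => Finset.Icc (-((R / m : ℕ) : ℤ) - 1) ((R / m : ℕ) : ℤ)) with hT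
  have hTc : T.card = (2 * (R / m) + 2) ^ d := by
    rw [hT, Fintype.card_piFinset]
    simp only [Int.card_Icc, Finset.prod_const, Finset.card_univ, Fintype.card_fin]
    congr 1
    omega
  have hsub : S ∩ bal z R ⊆ T.biUnion fun k => S ∩ bal (fun i => z i + (((m : ℤ) * k i : ℤ) : ZMod L)) r₁ := by
    intro x hx
    rw [Finset.mem_inter] at hx
    have hxz : td z x ≤ R := by
      have := hx.2
      unfold bal at this
      rw [Finset.mem_filter] at this
      exact this.2
    have hv : ∀ i, (x i - z i).valMinAbs.natAbs ≤ R := by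
      intro i
      have h1 : (z i - x i).valMinAbs.natAbs ≤ td z x := by
        unfold td
        exact Finset.single_le_sum (f := fun i => (z i - x i).valMinAbs.natAbs)
          (fun i _ => Nat.zero_le _) (Finset.mem_univ i)
      have h2 : (x i - z i).valMinAbs.natAbs = (z i - x i).valMinAbs.natAbs := by
        rw [← neg_sub, ZMod.natAbs_valMinAbs_neg]
      omega
    rw [Finset.mem_biUnion]
    refine ⟨fun i => (x i - z i).valMinAbs / (m : ℤ), ?_, ?_⟩
    · rw [hT, Fintype.mem_piFinset]
      intro i
      rw [Finset.mem_Icc]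
      have h1 := hv i
      have h2 : (x i - z i).valMinAbs ≤ (R : ℤ) := by omega
      have h3 : -(R : ℤ) ≤ (x i - z i).valMinAbs := by omega
      have hmz : (0 : ℤ) < (m : ℤ) := by exact_mod_cast hm1
      constructor
      · rw [Int.le_ediv_iff_mul_le hmz]
        have h4 : R < (R / m + 1) * m := by
          have := Nat.lt_div_mul_add (a := R) (b := m) (by omega)
          nlinarith
        have h5 : (R : ℤ) < (((R / m : ℕ) : ℤ) + 1) * m := by exact_mod_cast h4
        linarith
      · push_cast
        exact Int.ediv_le_ediv hmz h2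
    · rw [Finset.mem_inter]
      refine ⟨hx.1, ?_⟩
      unfold bal
      rw [Finset.mem_filter]
      refine ⟨Finset.mem_univ _, ?_⟩
      unfold td
      have hmz : (0 : ℤ) < (m : ℤ) := by exact_mod_cast hm1
      have h6 : ∀ i ∈ (Finset.univ : Finset (Fin d)),
          (z i + (((m : ℤ) * ((x i - z i).valMinAbs / (m : ℤ)) : ℤ) : ZMod L) - x i).valMinAbs.natAbs
            ≤ m := by
        intro i _
        have h7 := Pool.Agent.Q53.LC.natAbs_le_of_cast
          (z i + (((m : ℤ) * ((x i - z i).valMinAbs / (m : ℤ)) : ℤ) : ZMod L) - x i)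
          (-((x i - z i).valMinAbs % (m : ℤ))) (by
            have h8 : (x i - z i).valMinAbs % (m : ℤ) =
                (x i - z i).valMinAbs - (m : ℤ) * ((x i - z i).valMinAbs / (m : ℤ)) := by
              have := Int.emod_add_mul_ediv (x i - z i).valMinAbs (m : ℤ)
              linarith
            rw [h8]
            push_cast
            ring)
        have h9 := Int.emod_nonneg (x i - z i).valMinAbs hmz.ne'
        have h10 := Int.emod_lt_of_pos (x i - z i).valMinAbs hmz
        omega
      refine (Finset.sum_le_sum h6).trans ?_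
      rw [Finset.sum_const, Finset.card_univ, Fintype.card_fin, smul_eq_mul]
      exact hdm
  calc (S ∩ bal z R).card ≤ _ := Finset.card_le_card hsub
    _ ≤ ∑ k ∈ T, (S ∩ bal (fun i => z i + (((m : ℤ) * k i : ℤ) : ZMod L)) r₁).card :=
        Finset.card_biUnion_le
    _ ≤ ∑ _k ∈ T, lam := Finset.sum_le_sum fun k _ => hS _
    _ = T.card * lam := by rw [Finset.sum_const, smul_eq_mul]
    _ = lam * (2 * (R / m) + 2) ^ d := by rw [hTc, mul_comm]
    _ ≤ lam * (2 * (R / m) + 3) ^ d :=
        Nat.mul_le_mul_left _ (Nat.pow_le_pow_left (by omega) _)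

end Run7.h34.LC
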