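import Pool.Agent.Q292.LC.Stm7
import Pool.Agent.Q53.LC.Poi
import Pool.Agent.Q187.LC.Nas

/-!
# Project LC (helper292, helper565), job DYA: the mean over a box and the mean over all boxes
-/

set_option autoImplicit false

namespace Run7.h34.LC

open Finset Matrix Q292.LC

/-- the mean of `f` over `Q` -/
noncomputable def mn {V : Type} (f : V → ℝ) (Q : Finset V) : ℝ := (∑ x ∈ Q, f x) / (Q.card : ℝ)

/-- Jensen -/
theorem mn_sub_sq {V : Type} (f : V → ℝ) (A B Q : Finset V) (hA : A ⊆ Q) (hB : B ⊆ Q) (a b : ℝ)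
    (ha : 0 < a) (hb : 0 < b) (hAc : a ≤ A.card) (hBc : b ≤ B.card) :
    (mn f A - mn f B) ^ 2 ≤ (∑ x ∈ Q, ∑ y ∈ Q, (f x - f y) ^ 2) / (a * b) := by
  have hA0 : (0 : ℝ) < A.card := lt_of_lt_of_le ha hAc
  have hB0 : (0 : ℝ) < B.card := lt_of_lt_of_le hb hBc
  have h1 : mn f A - mn f B =
      (∑ p ∈ A ×ˢ B, (f p.1 - f p.2)) / ((A.card : ℝ) * B.card) := by
    rw [Finset.sum_product]
    simp only [Finset.sum_sub_distrib, Finset.sum_const, nsmul_eq_mul]
    rw [← Finset.mul_sum]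
    unfold mn
    field_simp
  have h2 : (∑ p ∈ A ×ˢ B, (f p.1 - f p.2)) ^ 2 ≤
      ((A.card : ℝ) * B.card) * ∑ p ∈ A ×ˢ B, (f p.1 - f p.2) ^ 2 := by
    have := sq_sum_le_card_mul_sum_sq (s := A ×ˢ B) (f := fun p : V × V => f p.1 - f p.2)
    rw [Finset.card_product] at this
    push_cast at this
    exact this
  have h3 : ∑ p ∈ A ×ˢ B, (f p.1 - f p.2) ^ 2 ≤ ∑ x ∈ Q, ∑ y ∈ Q, (f x - f y) ^ 2 := by
    rw [← Finset.sum_product']
    exact Finset.sum_le_sum_of_subset_of_nonneg (Finset.product_subset_product hA hB)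
      (fun _ _ _ => sq_nonneg _)
  have h4 : 0 ≤ ∑ x ∈ Q, ∑ y ∈ Q, (f x - f y) ^ 2 :=
    Finset.sum_nonneg fun _ _ => Finset.sum_nonneg fun _ _ => sq_nonneg _
  rw [h1, div_pow]
  have h5 : (∑ p ∈ A ×ˢ B, (f p.1 - f p.2)) ^ 2 / ((A.card : ℝ) * B.card) ^ 2 ≤
      (∑ x ∈ Q, ∑ y ∈ Q, (f x - f y) ^ 2) / ((A.card : ℝ) * B.card) := by
    rw [div_le_div_iff₀ (by positivity) (by positivity)]
    calc (∑ p ∈ A ×ˢ B, (f p.1 - f p.2)) ^ 2 * ((A.card : ℝ) * B.card) ≤
        (((A.card : ℝ) * B.card) * ∑ p ∈ A ×ˢ B, (f p.1 - f p.2) ^ 2) *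
          ((A.card : ℝ) * B.card) := by gcongr
      _ = (∑ p ∈ A ×ˢ B, (f p.1 - f p.2) ^ 2) * ((A.card : ℝ) * B.card) ^ 2 := by ring
      _ ≤ _ := by gcongr
  refine h5.trans ?_
  gcongr

section box

variable {d L : ℕ} [NeZero L]

theorem box_mono {z : Fin d → ZMod L} {r s : ℕ} (h : r ≤ s) : box z r ⊆ box z s := by
  intro x hx
  unfold Q292.LC.box at hx ⊢
  rw [Finset.mem_filter] at hx ⊢
  exact ⟨Finset.mem_univ _, fun i => lt_of_lt_of_le (hx.2 i) h⟩

theorem card_half (z : Fin d → ZMod L) (r M : ℕ) (hr : 1 ≤ r) (hM : M * r ≤ L)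
    (Dm : Finset (Fin d → ZMod L)) (hD : ∀ v, 2 * (Dm ∩ box v r).card ≤ r ^ d) :
    ((M : ℝ) * r) ^ d / 2 ≤ ((box z (M * r) \ Dm).card : ℝ) := by
  have hc1 := Pool.Agent.Q187.LC.Nas.card_Dm z r M hr Dm hD
  have hc2 := Pool.Agent.Q187.LC.Nas.card_box z (M * r) hM
  have hc3 : (box z (M * r) \ Dm).card + (Dm ∩ box z (M * r)).card = (M * r) ^ d := by
    rw [← hc2, Finset.inter_comm]
    exact Finset.card_sdiff_add_card_inter _ _
  have hc4 : (M * r) ^ d ≤ 2 * (box z (M * r) \ Dm).card := by omega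
  have : (((M * r) ^ d : ℕ) : ℝ) ≤ ((2 * (box z (M * r) \ Dm).card : ℕ) : ℝ) := by
    exact_mod_cast hc4
  push_cast at this
  linarith

/-- the common box of two large boxes -/
theorem common_box (z z' : Fin d → ZMod L) (r M₀ M₁ : ℕ) (h0 : M₀ * r ≤ L) (h1 : L < (M₀ + 1) * r)
    (h2 : 4 * r ≤ L) (h3 : 4 * (M₁ * r) ≤ L) :
    ∃ u : Fin d → ZMod L, box u (M₁ * r) ⊆ box z (M₀ * r) ∧ box u (M₁ * r) ⊆ box z' (M₀ * r) := by
  classical
  have h1' : L < M₀ * r + r := by rw [Nat.succ_mul] at h1; exact h1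
  set N₀ := M₀ * r with hN₀
  set N₁ := M₁ * r with hN₁
  refine ⟨fun i => if N₁ + (z' i - z i).val ≤ N₀ then z' i else z i, ?_, ?_⟩
  · intro x hx
    unfold Q292.LC.box at hx ⊢
    rw [Finset.mem_filter] at hx ⊢
    refine ⟨Finset.mem_univ _, fun i => ?_⟩
    have h4 := hx.2 i
    simp only at h4
    have ht : (z' i - z i).val < L := ZMod.val_lt _
    by_cases hc : N₁ + (z' i - z i).val ≤ N₀
    · rw [if_pos hc] at h4
      have h5 : x i - z i = (x i - z' i) + (z' i - z i) := by ring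
      have h6 := ZMod.val_add_le (x i - z' i) (z' i - z i)
      rw [← h5] at h6
      omega
    · rw [if_neg hc] at h4
      omega
  · intro x hx
    unfold Q292.LC.box at hx ⊢
    rw [Finset.mem_filter] at hx ⊢
    refine ⟨Finset.mem_univ _, fun i => ?_⟩
    have h4 := hx.2 i
    simp only at h4
    have ht : (z' i - z i).val < L := ZMod.val_lt _
    by_cases hc : N₁ + (z' i - z i).val ≤ N₀
    · rw [if_pos hc] at h4
      omega
    · rw [if_neg hc] at h4
      have h5 : x i - z' i = (x i - z i) + (z i - z' i) := by ring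
      have h6 := ZMod.val_add_le (x i - z i) (z i - z' i)
      rw [← h5] at h6
      have h7 : z' i - z i ≠ 0 := by
        intro h
        rw [h, ZMod.val_zero] at hc
        omega
      have h8 : (z i - z' i).val = L - (z' i - z i).val := by
        have h9 : z i - z' i = -(z' i - z i) := by ring
        rw [h9]
        have : NeZero (z' i - z i) := ⟨h7⟩
        exact ZMod.val_neg_of_ne_zero (z' i - z i)
      omega

end box

/-- the chain of boxes with the same corner -/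
theorem chain (h : ℕ → ℝ) (a : ℝ) (ha : 0 ≤ a) (N : ℕ)
    (hs : ∀ m M : ℕ, 1 ≤ m → 2 * m ≤ M → M ≤ 3 * m → M ≤ N →
      (h m - h M) ^ 2 ≤ 36 * a ^ 2 / m) :
    ∀ M : ℕ, 1 ≤ M → M ≤ N → |h 1 - h M| ≤ 21 * a * (1 - 1 / Real.sqrt M) := by
  intro M
  induction M using Nat.strong_induction_on with
  | _ M ih =>
    intro hM1 hMN
    rcases Nat.lt_or_ge M 2 with hM2 | hM2
    · have : M = 1 := by omega
      subst this
      simp
    · set m := M / 2 with hm
      have hm1 : 1 ≤ m := by omega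
      have h1 := ih m (by omega) hm1 (by omega)
      have h2 := hs m M hm1 (by omega) (by omega) hMN
      have hmR : (0 : ℝ) < m := by exact_mod_cast hm1
      have hMR : (0 : ℝ) < M := by exact_mod_cast hM1
      have hsm : 0 < Real.sqrt m := Real.sqrt_pos.2 hmR
      have hsM : 0 < Real.sqrt M := Real.sqrt_pos.2 hMR
      have h3 : |h m - h M| ≤ 6 * a / Real.sqrt m := by
        apply abs_le_of_sq_le_sq
        · rw [div_pow, Real.sq_sqrt hmR.le]
          calc (h m - h M) ^ 2 ≤ 36 * a ^ 2 / m := h2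
            _ = (6 * a) ^ 2 / m := by ring
        · positivity
      have h4 : |h 1 - h M| ≤ |h 1 - h m| + |h m - h M| := abs_sub_le _ _ _
      have h5 : 7 * Real.sqrt m ≤ 5 * Real.sqrt M := by
        apply abs_le_of_sq_le_sq' _ (by positivity) |>.2
        rw [mul_pow, mul_pow, Real.sq_sqrt hmR.le, Real.sq_sqrt hMR.le]
        have : (2 : ℝ) * m ≤ M := by
          have : 2 * m ≤ M := by omega
          exact_mod_cast this
        nlinarith
      have h6 : 7 / Real.sqrt M ≤ 5 / Real.sqrt m := by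
        rw [div_le_div_iff₀ hsM hsm]
        linarith
      have h7 : 21 * a * (1 - 1 / Real.sqrt m) + 6 * a / Real.sqrt m ≤
          21 * a * (1 - 1 / Real.sqrt M) := by
        have h8 : 21 * a * (1 - 1 / Real.sqrt m) + 6 * a / Real.sqrt m =
            21 * a - 3 * a * (5 / Real.sqrt m) := by
          field_simp
          ring
        have h9 : 21 * a * (1 - 1 / Real.sqrt M) = 21 * a - 3 * a * (7 / Real.sqrt M) := by
          field_simp
          ring
        rw [h8, h9]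
        have := mul_le_mul_of_nonneg_left h6 (show 0 ≤ 3 * a by positivity)
        linarith
      linarith

theorem dya : S_DYA := by
  classical
  intro d hd
  obtain ⟨C, hC1, hC⟩ := Pool.Agent.Q53.LC.poi d (by omega)
  refine ⟨4900 * C, by linarith, ?_⟩
  intro L _ r hr hrL Dm hD f z
  set E : ℝ := ∑ x, ∑ y, (if x ∉ Dm ∧ y ∉ Dm ∧ td x y ≤ 2 * d * r then (f x - f y) ^ 2 else 0)
    with hE
  have hE0 : 0 ≤ E := by
    refine Finset.sum_nonneg fun x _ => Finset.sum_nonneg fun y _ => ?_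
    split_ifs
    · positivity
    · exact le_rfl
  have hrR : (0 : ℝ) < r := by exact_mod_cast hr
  -- POI
  have hP : ∀ (v : Fin d → ZMod L) (M : ℕ), 1 ≤ M → M * r ≤ L →
      ∑ x ∈ box v (M * r) \ Dm, ∑ y ∈ box v (M * r) \ Dm, (f x - f y) ^ 2 ≤
        C * M ^ (d + 2) * E := by
    intro v M hM hML
    refine (hC L r M hr hM hML v Dm hD f).trans ?_
    apply mul_le_mul_of_nonneg_left _ (by positivity)
    have e1 : ∀ x y, x ∈ box v (M * r) \ Dm → y ∈ box v (M * r) \ Dm →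
        (if td x y ≤ 2 * d * r then (f x - f y) ^ 2 else 0) =
        (if x ∉ Dm ∧ y ∉ Dm ∧ td x y ≤ 2 * d * r then (f x - f y) ^ 2 else 0) := by
      intro x y hx hy
      rw [Finset.mem_sdiff] at hx hy
      simp only [hx.2, hy.2, not_false_eq_true, true_and]
    have e2 : ∀ x y, 0 ≤ (if x ∉ Dm ∧ y ∉ Dm ∧ td x y ≤ 2 * d * r then (f x - f y) ^ 2
        else (0 : ℝ)) := by
      intro x y
      split_ifs
      · positivity
      · exact le_rfl
    calc ∑ x ∈ box v (M * r) \ Dm, ∑ y ∈ box v (M * r) \ Dm,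
          (if td x y ≤ 2 * d * r then (f x - f y) ^ 2 else 0)
        = ∑ x ∈ box v (M * r) \ Dm, ∑ y ∈ box v (M * r) \ Dm,
          (if x ∉ Dm ∧ y ∉ Dm ∧ td x y ≤ 2 * d * r then (f x - f y) ^ 2 else 0) :=
          Finset.sum_congr rfl fun x hx => Finset.sum_congr rfl fun y hy => e1 x y hx hy
      _ ≤ ∑ x, ∑ y ∈ box v (M * r) \ Dm,
          (if x ∉ Dm ∧ y ∉ Dm ∧ td x y ≤ 2 * d * r then (f x - f y) ^ 2 else 0) :=
          Finset.sum_le_sum_of_subset_of_nonneg (Finset.subset_univ _)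
            (fun x _ _ => Finset.sum_nonneg fun y _ => e2 x y)
      _ ≤ E := Finset.sum_le_sum fun x _ =>
          Finset.sum_le_sum_of_subset_of_nonneg (Finset.subset_univ _) (fun y _ _ => e2 x y)
  -- means of two sub-boxes
  have hJ : ∀ (v u : Fin d → ZMod L) (m M : ℕ), 1 ≤ m → m ≤ M → M * r ≤ L →
      box u (m * r) ⊆ box v (M * r) →
      (mn f (box u (m * r) \ Dm) - mn f (box v (M * r) \ Dm)) ^ 2 ≤
        4 * ((M : ℝ) ^ 2 / (m : ℝ) ^ d) * (C * E / (r : ℝ) ^ (2 * d)) := by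
    intro v u m M hm hmM hML hsub
    have hmR : (0 : ℝ) < m := by exact_mod_cast hm
    have hMR : (0 : ℝ) < M := by exact_mod_cast (lt_of_lt_of_le hm hmM)
    have h1 := mn_sub_sq f (box u (m * r) \ Dm) (box v (M * r) \ Dm) (box v (M * r) \ Dm)
      (Finset.sdiff_subset_sdiff hsub le_rfl) le_rfl (((m : ℝ) * r) ^ d / 2)
      (((M : ℝ) * r) ^ d / 2) (by positivity) (by positivity)
      (card_half u r m hr (le_trans (Nat.mul_le_mul_right r hmM) hML) Dm hD)
      (card_half v r M hr hML Dm hD)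
    refine h1.trans ?_
    have h2 := hP v M (le_trans hm hmM) hML
    calc _ ≤ (C * M ^ (d + 2) * E) / (((m : ℝ) * r) ^ d / 2 * (((M : ℝ) * r) ^ d / 2)) := by
          gcongr
      _ = 4 * ((M : ℝ) ^ 2 / (m : ℝ) ^ d) * (C * E / (r : ℝ) ^ (2 * d)) := by
          rw [mul_pow, mul_pow, pow_add, two_mul, pow_add]
          field_simp
          ring
  set a : ℝ := Real.sqrt (C * E / (r : ℝ) ^ (2 * d)) with ha
  have ha0 : 0 ≤ a := Real.sqrt_nonneg _
  have haa : a ^ 2 = C * E / (r : ℝ) ^ (2 * d) := Real.sq_sqrt (by positivity)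
  set M₀ := L / r with hM₀
  have hM₀4 : 4 ≤ M₀ := by
    rw [hM₀, Nat.le_div_iff_mul_le (by omega)]
    exact hrL
  have hM₀r : M₀ * r ≤ L := Nat.div_mul_le_self L r
  have hM₀s : L < (M₀ + 1) * r := by
    have := Nat.lt_div_mul_add (a := L) (b := r) (by omega)
    rw [Nat.succ_mul]
    exact this
  set M₁ := M₀ / 4 with hM₁
  have hM₁1 : 1 ≤ M₁ := by omega
  have hM₁r : 4 * (M₁ * r) ≤ L := by
    have : 4 * M₁ ≤ M₀ := by omega
    calc 4 * (M₁ * r) = (4 * M₁) * r := by ring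
      _ ≤ M₀ * r := Nat.mul_le_mul_right r this
      _ ≤ L := hM₀r
  -- the chain
  have hch : ∀ v : Fin d → ZMod L,
      |mn f (box v (1 * r) \ Dm) - mn f (box v (M₀ * r) \ Dm)| ≤ 21 * a := by
    intro v
    have h1 := chain (fun M => mn f (box v (M * r) \ Dm)) a ha0 M₀ (by
      intro m M hm h2m h3m hMM
      have hML : M * r ≤ L := le_trans (Nat.mul_le_mul_right r hMM) hM₀r
      have h2 := hJ v v m M hm (by omega) hML (box_mono (Nat.mul_le_mul_right r (by omega)))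
      refine h2.trans ?_
      rw [← haa]
      have hmR : (0 : ℝ) < m := by exact_mod_cast hm
      have hm1 : (1 : ℝ) ≤ m := by exact_mod_cast hm
      have h3 : (M : ℝ) ^ 2 / (m : ℝ) ^ d ≤ 9 / m := by
        rw [div_le_div_iff₀ (by positivity) hmR]
        have h4 : (M : ℝ) ≤ 3 * m := by exact_mod_cast h3m
        have h5 : (m : ℝ) ^ 3 ≤ (m : ℝ) ^ d := pow_le_pow_right₀ hm1 hd
        have h6 : (M : ℝ) ^ 2 ≤ (3 * m) ^ 2 := by
          gcongr
        calc (M : ℝ) ^ 2 * m ≤ (3 * m) ^ 2 * m := by gcongr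
          _ = 9 * (m : ℝ) ^ 3 := by ring
          _ ≤ 9 * (m : ℝ) ^ d := by gcongr
      calc 4 * ((M : ℝ) ^ 2 / (m : ℝ) ^ d) * a ^ 2 ≤ 4 * (9 / m) * a ^ 2 := by gcongr
        _ = 36 * a ^ 2 / m := by ring) M₀ (by omega) le_rfl
    refine h1.trans ?_
    have h2 : 0 ≤ 1 / Real.sqrt M₀ := by positivity
    nlinarith
  -- top scale
  have htop : ∀ v v' : Fin d → ZMod L,
      |mn f (box v (M₀ * r) \ Dm) - mn f (box v' (M₀ * r) \ Dm)| ≤ 28 * a := by
    intro v v'
    obtain ⟨u, hu1, hu2⟩ := common_box v v' r M₀ M₁ hM₀r hM₀s hrL hM₁r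
    have hb : (M₀ : ℝ) ^ 2 / (M₁ : ℝ) ^ d ≤ 49 := by
      have hm1 : (1 : ℝ) ≤ M₁ := by exact_mod_cast hM₁1
      rw [div_le_iff₀ (by positivity)]
      have h4 : (M₀ : ℝ) ≤ 7 * M₁ := by
        have : M₀ ≤ 7 * M₁ := by omega
        exact_mod_cast this
      have h5 : (M₁ : ℝ) ^ 2 ≤ (M₁ : ℝ) ^ d := pow_le_pow_right₀ hm1 (by omega)
      calc (M₀ : ℝ) ^ 2 ≤ (7 * M₁) ^ 2 := by gcongr
        _ = 49 * (M₁ : ℝ) ^ 2 := by ring
        _ ≤ 49 * (M₁ : ℝ) ^ d := by gcongr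
    have key : ∀ w : Fin d → ZMod L, box u (M₁ * r) ⊆ box w (M₀ * r) →
        |mn f (box u (M₁ * r) \ Dm) - mn f (box w (M₀ * r) \ Dm)| ≤ 14 * a := by
      intro w hw
      apply abs_le_of_sq_le_sq
      · refine (hJ w u M₁ M₀ hM₁1 (by omega) hM₀r hw).trans ?_
        rw [← haa]
        have : 4 * ((M₀ : ℝ) ^ 2 / (M₁ : ℝ) ^ d) * a ^ 2 ≤ 4 * 49 * a ^ 2 := by gcongr
        nlinarith
      · positivity
    have h1 := key v hu1
    have h2 := key v' hu2
    have h3 := abs_sub_le (mn f (box v (M₀ * r) \ Dm)) (mn f (box u (M₁ * r) \ Dm))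
      (mn f (box v' (M₀ * r) \ Dm))
    have h4 := abs_sub_comm (mn f (box v (M₀ * r) \ Dm)) (mn f (box u (M₁ * r) \ Dm))
    linarith
  have hall : ∀ v v' : Fin d → ZMod L,
      |mn f (box v r \ Dm) - mn f (box v' r \ Dm)| ≤ 70 * a := by
    intro v v'
    have h1 := hch v
    have h2 := hch v'
    have h3 := htop v v'
    rw [one_mul] at h1 h2
    rw [abs_le] at h1 h2 h3 ⊢
    constructor <;> linarith [h1.1, h1.2, h2.1, h2.2, h3.1, h3.2]
  -- the vector `phz`
  have hchi : ∀ v : Fin d → ZMod L, ∑ x, chi r Dm v x * f x = mn f (box v r \ Dm) := by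
    intro v
    unfold chi mn
    simp only [ite_mul, zero_mul]
    rw [Finset.sum_ite_mem, Finset.univ_inter, Finset.sum_div]
    exact Finset.sum_congr rfl fun x _ => by ring
  have hcardV : ((Fintype.card (Fin d → ZMod L) : ℕ) : ℝ) = (L : ℝ) ^ d := by
    rw [Fintype.card_fun, ZMod.card, Fintype.card_fin]
    push_cast
    rfl
  have hLR : (0 : ℝ) < (L : ℝ) ^ d := by
    have : 0 < L := by omega
    positivity
  have hphz : phz r Dm z ⬝ᵥ f = (∑ v : Fin d → ZMod L,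
      (mn f (box z r \ Dm) - mn f (box v r \ Dm))) / (L : ℝ) ^ d := by
    unfold dotProduct phz
    simp only [sub_mul, Finset.sum_sub_distrib, Finset.sum_const, Finset.card_univ, nsmul_eq_mul]
    rw [hchi z, hcardV, sub_div, mul_comm, mul_div_assoc, div_self hLR.ne', mul_one]
    congr 1
    have : ∀ x, (∑ z' : Fin d → ZMod L, chi r Dm z' x) / (L : ℝ) ^ d * f x =
        (∑ z' : Fin d → ZMod L, chi r Dm z' x * f x) / (L : ℝ) ^ d := by
      intro x
      rw [← Finset.sum_mul]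
      ring
    simp only [this]
    rw [← Finset.sum_div, Finset.sum_comm]
    simp only [hchi]
  have habs : |phz r Dm z ⬝ᵥ f| ≤ 70 * a := by
    rw [hphz, abs_div, abs_of_pos hLR, div_le_iff₀ hLR]
    calc |∑ v : Fin d → ZMod L, (mn f (box z r \ Dm) - mn f (box v r \ Dm))| ≤
        ∑ v : Fin d → ZMod L, |mn f (box z r \ Dm) - mn f (box v r \ Dm)| :=
          Finset.abs_sum_le_sum_abs _ _
      _ ≤ ∑ _v : Fin d → ZMod L, 70 * a := Finset.sum_le_sum fun v _ => hall z v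
      _ = 70 * a * (L : ℝ) ^ d := by
        rw [Finset.sum_const, Finset.card_univ, nsmul_eq_mul, hcardV]
        ring
  have hfin : (phz r Dm z ⬝ᵥ f) ^ 2 ≤ (70 * a) ^ 2 := by
    rw [← sq_abs]
    gcongr
  calc (phz r Dm z ⬝ᵥ f) ^ 2 ≤ (70 * a) ^ 2 := hfin
    _ = 4900 * (C * E / (r : ℝ) ^ (2 * d)) := by rw [← haa]; ring
    _ = 4900 * C / (r : ℝ) ^ (2 * d) * E := by ring

end Run7.h34.LC
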